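import Pool.Agent.W206.YP.Stm

/-!
# Change of the index set
-/

set_option autoImplicit false

namespace Pool.Agent.W551.YP.RI

open MvPolynomial Pool.Agent.W206.YP

/-- transport of ideals along an equivalence of the index sets -/
noncomputable def tr {σ τ : Type} (e : σ ≃ τ) (Q : Ideal (MvPolynomial σ ℂ)) :
    Ideal (MvPolynomial τ ℂ) :=
  Q.comap (rename e.symm : MvPolynomial τ ℂ →ₐ[ℂ] MvPolynomial σ ℂ)

theorem mem_tr {σ τ : Type} (e : σ ≃ τ) (Q : Ideal (MvPolynomial σ ℂ)) (f : MvPolynomial τ ℂ) :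
    f ∈ tr e Q ↔ (rename e.symm f : MvPolynomial σ ℂ) ∈ Q := Iff.rfl

theorem ren1 {σ τ : Type} (e : σ ≃ τ) (f : MvPolynomial σ ℂ) :
    rename e.symm (rename e f) = f := by
  rw [rename_rename]
  have : (e.symm ∘ e : σ → σ) = id := by
    funext x
    simp
  rw [this, rename_id_apply]

theorem ren2 {σ τ : Type} (e : σ ≃ τ) (f : MvPolynomial τ ℂ) :
    rename e (rename e.symm f) = f := by
  rw [rename_rename]
  have : (e ∘ e.symm : τ → τ) = id := by
    funext x
    simp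
  rw [this, rename_id_apply]

theorem tr_tr {σ τ : Type} (e : σ ≃ τ) (Q : Ideal (MvPolynomial σ ℂ)) :
    tr e.symm (tr e Q) = Q := by
  ext f
  rw [mem_tr, mem_tr]
  have : (rename e.symm (rename e.symm.symm f) : MvPolynomial σ ℂ) = f := ren1 e f
  rw [this]

theorem dimGe_tr {σ τ : Type} (e : σ ≃ τ) (Q : Ideal (MvPolynomial σ ℂ)) (m : ℕ)
    (h : DimGe Q m) : DimGe (tr e Q) m := by
  obtain ⟨y, hy⟩ := h
  have h1 : Q ≤ (tr e Q).comap (rename e : MvPolynomial σ ℂ →ₐ[ℂ] MvPolynomial τ ℂ) := by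
    intro f hf
    show (rename e.symm (rename e f) : MvPolynomial σ ℂ) ∈ Q
    rw [ren1]
    exact hf
  have h2 : (tr e Q).comap (rename e : MvPolynomial σ ℂ →ₐ[ℂ] MvPolynomial τ ℂ) ≤ Q := by
    intro f hf
    have hf' : (rename e.symm (rename e f) : MvPolynomial σ ℂ) ∈ Q := hf
    rw [ren1] at hf'
    exact hf'
  let φ : MvPolynomial σ ℂ ⧸ Q →ₐ[ℂ] MvPolynomial τ ℂ ⧸ tr e Q :=
    Ideal.quotientMapₐ (tr e Q) (rename e : MvPolynomial σ ℂ →ₐ[ℂ] MvPolynomial τ ℂ) h1
  have hφ : Function.Injective φ := Ideal.quotientMap_injective' (H := h1) h2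
  exact ⟨φ ∘ y, hy.map' hφ⟩

theorem relI_tr {σ τ : Type} (e : σ ≃ τ) (Q : Ideal (MvPolynomial σ ℂ)) (T : Finset σ)
    (h : RelI Q T) : RelI (tr e Q) (T.map e.toEmbedding) := by
  intro t ht
  rw [Finset.mem_map] at ht
  obtain ⟨t0, ht0, rfl⟩ := ht
  rcases h t0 ht0 with ⟨c, hc, hX⟩ | ⟨u, hu, F, hF, hX⟩
  · left
    refine ⟨c, hc, ?_⟩
    rw [mem_tr]
    have : (rename e.symm (X (e.toEmbedding t0) - C (c : ℂ) : MvPolynomial τ ℂ) :
        MvPolynomial σ ℂ) = X t0 - C (c : ℂ) := by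
      simp
    rw [this]
    exact hX
  · right
    refine ⟨e u, ?_, F, hF, ?_⟩
    · intro hh
      rw [Finset.mem_map] at hh
      obtain ⟨v, hv, hvu⟩ := hh
      have : v = u := e.injective hvu
      exact hu (this ▸ hv)
    · rw [mem_tr]
      have h1 : (rename e.symm (aeval ![(X (e.toEmbedding t0) : MvPolynomial τ ℂ), X (e u)] F :
          MvPolynomial τ ℂ) : MvPolynomial σ ℂ) = aeval ![(X t0 : MvPolynomial σ ℂ), X u] F := by
        have h2 := DFunLike.congr_fun (comp_aeval (R := Qb)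
          (![(X (e.toEmbedding t0) : MvPolynomial τ ℂ), X (e u)])
          ((rename e.symm : MvPolynomial τ ℂ →ₐ[ℂ] MvPolynomial σ ℂ).restrictScalars Qb)) F
        have h3 : (fun i => ((rename e.symm : MvPolynomial τ ℂ →ₐ[ℂ]
            MvPolynomial σ ℂ).restrictScalars Qb)
            ((![(X (e.toEmbedding t0) : MvPolynomial τ ℂ), X (e u)] : Fin 2 → _) i)) =
            ![(X t0 : MvPolynomial σ ℂ), X u] := by
          funext i
          fin_cases i
          · simp
          · simp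
        rw [h3] at h2
        exact h2
      rw [h1]
      exact hX

theorem atypI_tr {σ τ : Type} (e : σ ≃ τ) (P Q : Ideal (MvPolynomial σ ℂ)) (h : AtypI P Q) :
    AtypI (tr e P) (tr e Q) := by
  obtain ⟨hQ, hPQ, m, T, hm, hT, hP⟩ := h
  refine ⟨?_, ?_, m, T.map e.toEmbedding, dimGe_tr e Q m hm, relI_tr e Q T hT, ?_⟩
  · have := hQ
    exact Ideal.comap_isPrime _ _
  · exact Ideal.comap_mono hPQ
  · intro hh
    apply hP
    have h1 := dimGe_tr e.symm (tr e P) _ hh
    rw [tr_tr, Finset.card_map] at h1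
    exact h1

theorem finI_tr {σ τ : Type} (e : σ ≃ τ) (P : Ideal (MvPolynomial σ ℂ))
    (h : FinI (tr e P)) : FinI P := by
  classical
  obtain ⟨S, hS1, hS2⟩ := h
  refine ⟨S.image (tr e.symm), ?_, ?_⟩
  · intro Q hQ
    rw [Finset.mem_image] at hQ
    obtain ⟨Q', hQ', rfl⟩ := hQ
    have h1 := atypI_tr e.symm _ _ (hS1 Q' hQ')
    rw [tr_tr] at h1
    exact h1
  · intro Q hQ
    obtain ⟨Q', hQ', hle⟩ := hS2 _ (atypI_tr e P Q hQ)
    refine ⟨tr e.symm Q', Finset.mem_image_of_mem _ hQ', ?_⟩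
    have h1 : tr e.symm Q' ≤ tr e.symm (tr e Q) := Ideal.comap_mono hle
    rw [tr_tr] at h1
    exact h1

/-- transport of sets -/
def trV {σ τ : Type} (e : σ ≃ τ) (V : Set (σ → ℂ)) : Set (τ → ℂ) := {y | y ∘ e ∈ V}

theorem IV_tr {σ τ : Type} (e : σ ≃ τ) (V : Set (σ → ℂ)) : IV (trV e V) = tr e (IV V) := by
  ext f
  rw [mem_tr]
  constructor
  · intro hf x hx
    have h1 := hf (x ∘ e.symm) (by
      show (x ∘ e.symm) ∘ e ∈ V
      have : (x ∘ e.symm) ∘ e = x := by funext i; simp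
      rw [this]; exact hx)
    rw [eval_rename]
    exact h1
  · intro hf y hy
    have h1 := hf (y ∘ e) hy
    rw [eval_rename] at h1
    have : (y ∘ e) ∘ e.symm = y := by funext i; simp
    rw [this] at h1
    exact h1

theorem ZL_tr {σ τ : Type} (e : σ ≃ τ) (P : Ideal (MvPolynomial σ ℂ)) :
    ZL (tr e P) = trV e (ZL P) := by
  ext y
  constructor
  · intro hy f hf
    have h1 := hy (rename e f) (by
      rw [mem_tr, ren1]
      exact hf)
    rw [eval_rename] at h1
    exact h1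
  · intro hy f hf
    have h1 := hy (rename e.symm f) hf
    rw [eval_rename] at h1
    have : (y ∘ e) ∘ e.symm = y := by funext i; simp
    rw [this] at h1
    exact h1

theorem main : S_RI := by
  intro h σ _ V hV
  let e : σ ≃ Fin (Fintype.card σ) := Fintype.equivFin σ
  apply finI_tr e
  rw [← IV_tr]
  apply h
  refine ⟨?_, ?_⟩
  · rw [IV_tr, ZL_tr, ← hV.1]
  · rw [IV_tr]
    have := hV.2
    exact Ideal.comap_isPrime _ _

end Pool.Agent.W551.YP.RI
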